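import Mathlib

open Finset Filter Topology

namespace Pool.Agent.Results.MP_daf63b_nt.Infinite

/-- `n` is a sum of numbers `p^k q^l`, none dividing a different one -/
def Rep (p q n : ℕ) : Prop :=
  ∃ S : Finset ℕ, (∀ s ∈ S, ∃ k l : ℕ, s = p ^ k * q ^ l) ∧
    (∀ s ∈ S, ∀ t ∈ S, s ∣ t → s = t) ∧ ∑ s ∈ S, s = n

lemma frob (p q a b : ℤ) (hp : 0 < p) (hq : 0 < q) (hc : IsCoprime p q) (ha : 0 ≤ a) (hb : 0 ≤ b) :
    p * q - p - q ≠ p * a + q * b := by
  intro h
  have h1 : q ∣ a + 1 := hc.symm.dvd_of_dvd_mul_left ⟨p - b - 1, by linear_combination -h⟩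
  have h2 : p ∣ b + 1 := hc.dvd_of_dvd_mul_left ⟨q - a - 1, by linear_combination -h⟩
  have := Int.le_of_dvd (by omega) h1
  have := Int.le_of_dvd (by omega) h2
  nlinarith

lemma key (p q : ℤ) (hp : 0 < p) (hq : 0 < q) (hc : IsCoprime p q) (κ μ : ℕ → ℕ) (J : ℕ)
    (S : Finset ℕ) : (∀ s ∈ S, ∀ t ∈ S, κ s ≤ κ t → μ s ≤ μ t → s = t) →
    ∀ (K l : ℕ) (c : ℤ), 0 < c → (∀ s ∈ S, κ s < K ∧ l ≤ μ s ∧ μ s < J) →
      (p * q - p - q) * ∑ s ∈ S, p ^ κ s * q ^ μ s ≠ c * p ^ K * q ^ l + q ^ J := by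
  induction S using Finset.induction_on_min_value μ with
  | empty => intro _ K l c hc _; simp; positivity
  | insert a S ha hmin ih =>
    intro hS K l c hc0 hb h
    rw [sum_insert ha] at h
    have h1 : ∀ s ∈ S, κ s < κ a ∧ μ a + 1 ≤ μ s ∧ μ s < J := by
      intro s hs
      have hne : a ≠ s := fun e => ha (e ▸ hs)
      have e1 := hS a (mem_insert_self _ _) s (mem_insert_of_mem hs)
      have e2 := hS s (mem_insert_of_mem hs) a (mem_insert_self _ _)
      have e3 := hmin s hs
      have e4 := hb s (mem_insert_of_mem hs)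
      omega
    obtain ⟨b1, b2, b3⟩ := hb a (mem_insert_self _ _)
    obtain ⟨d, hd⟩ := Nat.exists_eq_add_of_lt b1
    obtain ⟨e, he⟩ := Nat.exists_eq_add_of_le b2
    obtain ⟨f, hf⟩ := Nat.exists_eq_add_of_lt b3
    obtain ⟨W, hW⟩ : q ^ (μ a + 1) ∣ ∑ s ∈ S, p ^ κ s * q ^ μ s :=
      dvd_sum fun s hs => (pow_dvd_pow q (h1 s hs).2.1).mul_left _
    have h2 : q ^ (e + 1) ∣ c * p ^ (d + 1) - (p * q - p - q) * q ^ e := by
      apply (hc.symm.pow (m := e + 1) (n := κ a)).dvd_of_dvd_mul_left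
      refine ⟨(p * q - p - q) * W - q ^ f, ?_⟩
      apply mul_left_cancel₀ (pow_pos hq l).ne'
      rw [hW, hd, hf, he] at h
      linear_combination -h
    obtain ⟨c', hc'⟩ := h2
    obtain ⟨c0, hc0'⟩ : q ^ e ∣ c := by
      apply (hc.symm.pow (m := e) (n := d + 1)).dvd_of_dvd_mul_right
      exact ⟨p * q - p - q + q * c', by linear_combination hc'⟩
    have h3 : c0 * p ^ (d + 1) - (p * q - p - q) = q * c' := by
      apply mul_left_cancel₀ (pow_pos hq e).ne'
      rw [hc0'] at hc'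
      linear_combination hc'
    have h4 : 0 < c0 := (mul_pos_iff_of_pos_left (pow_pos hq e)).1 (hc0' ▸ hc0)
    have h5 : 0 < c' := by
      by_contra hn
      exact frob p q (c0 * p ^ d) (-c') hp hq hc (by positivity) (by omega)
        (by linear_combination -h3)
    refine ih (fun s hs t ht => hS s (mem_insert_of_mem hs) t (mem_insert_of_mem ht))
      (κ a) (μ a + 1) c' h5 h1 ?_
    rw [hd, he] at h
    rw [he]
    linear_combination h + p ^ κ a * q ^ l * hc'

lemma approx (p q f : ℕ) (hq : 2 ≤ q) (hpq : q < p) (hc : p.Coprime q) (hf : 0 < f) (k0 : ℕ) :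
    ∃ k i : ℕ, k0 ≤ k ∧ p ^ (f * k) ≤ q ^ (f * i + 1) ∧ q ^ (f * i) < p ^ (f * k) := by
  have hq0 : 0 < q := by omega
  have hp0 : 0 < p := by omega
  have lq : 0 < Real.log q := Real.log_pos (by exact_mod_cast hq)
  have lp : 0 < Real.log p := Real.log_pos (by exact_mod_cast (by omega : 1 < p))
  set θ := Real.log p / Real.log q with hθ
  have hirr : Irrational (θ / 1) := by
    rw [div_one]
    rintro ⟨r, hr⟩
    have hr0 : 0 < r := by
      have : (0 : ℝ) < r := hr ▸ div_pos lp lq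
      exact_mod_cast this
    obtain ⟨a, ha⟩ := Int.eq_ofNat_of_zero_le (Rat.num_pos.2 hr0).le
    have h1 : (a : ℝ) * Real.log q = r.den * Real.log p := by
      have h2 : (r : ℝ) = a / r.den := by rw [Rat.cast_def, ha]; simp
      rw [h2, hθ, div_eq_div_iff (by positivity) lq.ne'] at hr
      linarith
    rw [← Real.log_pow, ← Real.log_pow] at h1
    have h3 : q ^ a = p ^ r.den := by
      exact_mod_cast Real.log_injOn_pos (Set.mem_Ioi.2 (by positivity))
        (Set.mem_Ioi.2 (by positivity)) h1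
    have h4 := (hc.pow r.den a).eq_one_of_dvd (h3 ▸ dvd_rfl)
    have := Nat.pow_eq_one.1 h4
    have := r.den_pos
    omega
  have hd := AddCircle.denseRange_zsmul_coe_iff.2 hirr
  have hx : MapClusterPt (((1 / f / 2 : ℝ)) : AddCircle (1 : ℝ)) atTop
      (fun n : ℕ => n • (θ : AddCircle (1 : ℝ))) :=
    ((mapClusterPt_atTop_nsmul_tfae _ _).out 0 3).2 (hd _)
  have hf' : (0 : ℝ) < 1 / f := by positivity
  have hU : ((↑) : ℝ → AddCircle (1 : ℝ)) '' Set.Ioo 0 (1 / f) ∈
      𝓝 (((1 / f / 2 : ℝ)) : AddCircle (1 : ℝ)) :=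
    QuotientAddGroup.isOpenMap_coe.image_mem_nhds (Ioo_mem_nhds (by linarith) (by linarith))
  obtain ⟨k, ⟨s, ⟨s0, s1⟩, hs⟩, hk⟩ :=
    ((mapClusterPt_iff_frequently.1 hx _ hU).and_eventually (eventually_ge_atTop k0)).exists
  rw [← AddCircle.coe_nsmul, QuotientAddGroup.eq] at hs
  obtain ⟨m, hm⟩ := hs
  simp only [zsmul_eq_mul, mul_one, nsmul_eq_mul] at hm
  have hθ0 : 0 < θ := div_pos lp lq
  have hf1 : (1 : ℝ) / f ≤ 1 := by
    rw [div_le_one (by positivity)]; exact_mod_cast hf
  have hm0 : 0 ≤ m := by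
    have : (-1 : ℝ) < m := by nlinarith [mul_nonneg (Nat.cast_nonneg (α := ℝ) k) hθ0.le]
    have : -1 < m := by exact_mod_cast this
    omega
  obtain ⟨i, rfl⟩ := Int.eq_ofNat_of_zero_le hm0
  have e : Real.log p = θ * Real.log q := by rw [hθ]; field_simp
  have s2 : f * s < 1 := by rw [lt_div_iff₀ (by positivity)] at s1; linarith
  have s3 : 0 < f * s := by positivity
  have e2 : (k : ℝ) * θ = i + s := by push_cast at hm; linarith
  have e3 : (f * k : ℝ) * Real.log p = (f * i + f * s) * Real.log q := by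
    rw [e]; linear_combination (f * Real.log q) * e2
  refine ⟨k, i, hk, ?_, ?_⟩
  · rw [← Nat.cast_le (α := ℝ), ← Real.log_le_log_iff (by positivity) (by positivity)]
    push_cast
    rw [Real.log_pow, Real.log_pow]
    push_cast
    nlinarith
  · rw [← Nat.cast_lt (α := ℝ), ← Real.log_lt_log_iff (by positivity) (by positivity)]
    push_cast
    rw [Real.log_pow, Real.log_pow]
    push_cast
    nlinarith

theorem result (p q : ℕ) (hq : 2 ≤ q) (hpq : q < p) (hc : p.Coprime q) (h23 : ¬ (p = 3 ∧ q = 2)) :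
    {n : ℕ | 0 < n ∧ Nat.gcd n (p * q) = 1 ∧ ¬ Rep p q n}.Infinite := by
  obtain ⟨c, hc0, hM⟩ : ∃ c, 0 < c ∧ c + q + p + q = p * q := by
    have : p + 2 * q < p * q := by
      rcases Nat.lt_or_ge 2 q with h | h
      · nlinarith
      · obtain rfl : q = 2 := by omega
        have : p ≠ 4 := by rintro rfl; revert hc; decide
        omega
    exact ⟨p * q - p - 2 * q, by omega, by omega⟩
  have hMz : (p : ℤ) * q - p - q = (c + q : ℕ) := by zify at hM; push_cast; linarith
  have hcz : IsCoprime (p : ℤ) q := Nat.isCoprime_iff_coprime.2 hc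
  have hMp : p.Coprime (c + q) := by
    rw [← Nat.isCoprime_iff_coprime, ← hMz, show (p : ℤ) * q - p - q = -q + p * (q - 1) by ring]
    exact hcz.neg_right.add_mul_left_right _
  have hMq : q.Coprime (c + q) := by
    rw [← Nat.isCoprime_iff_coprime, ← hMz, show (p : ℤ) * q - p - q = -p + q * (p - 1) by ring]
    exact hcz.symm.neg_right.add_mul_left_right _
  have hcq : q.Coprime c := by simpa using hMq
  apply Set.infinite_of_forall_exists_gt
  intro N
  obtain ⟨k, i, hk, h1, h2⟩ := approx p q (c + q).totient hq hpq hc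
    (Nat.totient_pos.2 (by omega)) ((c + q) * (N + 1))
  have hk' : (c + q) * (N + 1) ≤ (c + q).totient * k :=
    hk.trans (Nat.le_mul_of_pos_left _ (Nat.totient_pos.2 (by omega)))
  obtain ⟨n, hn⟩ : c + q ∣ c * p ^ ((c + q).totient * k) + q ^ ((c + q).totient * i + 1) := by
    have a1 := (Nat.ModEq.pow_totient hMp).pow k
    have a2 := (Nat.ModEq.pow_totient hMq).pow i
    rw [← pow_mul, one_pow] at a1 a2
    have := (a1.mul_left c).add (a2.mul_right q)
    rw [← pow_succ, mul_one, one_mul] at this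
    exact (Nat.modEq_zero_iff_dvd.1 (this.trans (Nat.modEq_zero_iff_dvd.2 dvd_rfl)))
  have hK0 : 0 < (c + q).totient * k := lt_of_lt_of_le (by positivity) hk'
  generalize (c + q).totient * k = K at *
  generalize (c + q).totient * i = I at *
  have hnK : n < p ^ K := by
    apply lt_of_mul_lt_mul_left (a := c + q) _ (by omega)
    rw [← hn, pow_succ]
    nlinarith
  have hN : N < n := by
    apply lt_of_mul_lt_mul_left (a := c + q) _ (by omega)
    have : K < p ^ K := Nat.lt_pow_self (by omega)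
    rw [← hn]
    nlinarith [pow_pos (show 0 < q by omega) (I + 1)]
  refine ⟨n, ⟨by omega, ?_, ?_⟩, hN⟩
  · apply Nat.Coprime.mul_right
    · apply Nat.Coprime.coprime_mul_left (k := c + q)
      obtain ⟨K, rfl⟩ := Nat.exists_eq_add_of_lt hK0
      rw [← hn, pow_succ p, ← mul_assoc, Nat.coprime_mul_right_add_left]
      exact hc.symm.pow_left _
    · apply Nat.Coprime.coprime_mul_left (k := c + q)
      rw [← hn, pow_succ q, Nat.coprime_add_mul_right_left]
      exact hcq.symm.mul_left (hc.pow_left _)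
  · rintro ⟨S, hS, hA, hsum⟩
    choose! κ μ hκ using hS
    have hq0 : 0 < q := by omega
    have hp0 : 0 < p := by omega
    have hle : ∀ s ∈ S, s ≤ n := fun s hs => hsum ▸ single_le_sum (f := fun s => s)
      (fun _ _ => Nat.zero_le _) hs
    refine key p q (by omega) (by omega) hcz κ μ (I + 1) S ?_ K 0 c (by omega) ?_ ?_
    · intro s hs t ht a1 a2
      apply hA s hs t ht
      rw [hκ s hs, hκ t ht]
      exact mul_dvd_mul (pow_dvd_pow _ a1) (pow_dvd_pow _ a2)
    · intro s hs
      have a1 := hle s hs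
      rw [hκ s hs] at a1
      refine ⟨?_, Nat.zero_le _, ?_⟩
      · apply (Nat.pow_lt_pow_iff_right (a := p) (by omega)).1
        exact lt_of_le_of_lt ((Nat.le_mul_of_pos_right _ (by positivity)).trans a1) hnK
      · apply (Nat.pow_lt_pow_iff_right (a := q) (by omega)).1
        exact lt_of_le_of_lt ((Nat.le_mul_of_pos_left _ (by positivity)).trans a1)
          (hnK.trans_le h1)
    · have : ∑ s ∈ S, (p : ℤ) ^ κ s * q ^ μ s = n := by
        rw [← hsum]
        push_cast
        exact sum_congr rfl fun s hs => by exact_mod_cast (hκ s hs).symm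
      rw [this, hMz, pow_zero, mul_one]
      exact_mod_cast hn.symm

end Pool.Agent.Results.MP_daf63b_nt.Infinite
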